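import Pool.Agent.H837.AB.Defs

/-!
# Logarithmic pluricanonical sections, and affine lines
-/

set_option autoImplicit false

namespace Pool.Agent.H837.LU

open MvPolynomial Pool.Agent.H837.AB

variable {K : Type} [Field K] {r N M : ℕ}

/-- The minor of the Jacobian matrix of the forms `F (T i)` and the polynomials `g i` with the columns
`A`. -/
noncomputable def jacLog {e k : ℕ} {B : Type} [CommRing B]
    (F : Fin N → MvPolynomial (Fin (r + 1)) B) (T : Fin e → Fin N)
    (g : Fin k → MvPolynomial (Fin (r + 1)) B) (A : Fin e ⊕ Fin k → Fin (r + 1)) :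
    MvPolynomial (Fin (r + 1)) B :=
  (Matrix.of fun i l => pderiv (A l) (Sum.elim (fun i => F (T i)) g i)).det

/-- The projective variety `X` given by the forms `F i` is smooth of codimension `e` at the point `x`,
and the closed subset `D` of `X` given by the forms `G i` has normal crossings at `x`: the
polynomials `g i`, which vanish at `x`, are equations of the branches of `D` at `x`; they and `e` of
the forms `F i` have independent differentials at `x`. Here the forms `F (T i)` define `X`, and the
product of the `g i` defines `D`, where some `u`, of degree at most `c`, with `u x ≠ 0` is not zero. -/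
def Branches (e c k : ℕ) (F : Fin N → MvPolynomial (Fin (r + 1)) K)
    (G : Fin M → MvPolynomial (Fin (r + 1)) K) (x : Fin (r + 1) → K)
    (g : Fin k → MvPolynomial (Fin (r + 1)) K) : Prop :=
  (∀ i, eval x (g i) = 0) ∧ ∃ T : Fin e → Fin N,
    (∃ A : Fin e ⊕ Fin k → Fin (r + 1), eval x (jacLog F T g A) ≠ 0) ∧
    ∃ u : MvPolynomial (Fin (r + 1)) K, u.totalDegree ≤ c ∧ (eval x u ≠ 0 ∧
      ∀ y : Fin (r + 1) → K, (∀ i, eval y (F (T i)) = 0) → eval y u ≠ 0 →
        Zero F y ∧ (Zero G y ↔ ∃ i, eval y (g i) = 0))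

/-- `X` is not empty and smooth of pure codimension `e`, and `D` is a divisor with simple normal
crossings on `X`; the local equations have degrees at most `c`. -/
def PairBy (e c : ℕ) (F : Fin N → MvPolynomial (Fin (r + 1)) K)
    (G : Fin M → MvPolynomial (Fin (r + 1)) K) : Prop :=
  (∃ x : Fin (r + 1) → K, x ≠ 0 ∧ Zero F x) ∧
    ∀ x : Fin (r + 1) → K, x ≠ 0 → Zero F x → ∃ k, k ≤ c ∧
      ∃ g : Fin k → MvPolynomial (Fin (r + 1)) K, (∀ i, (g i).totalDegree ≤ c) ∧
        Branches e c k F G x g

/-- The section `s` of a power of the canonical bundle over an open subset of `X` which is given by the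
polynomials `P (T, j)` divided by `H ^ m` has at `x` at most a pole of order `m` along `D`: if `g` is a
product of equations of the branches of `D` then `g ^ m s` is regular at `x`; it is given by the
polynomials `w (T, j)`, of degree at most `2 c`, divided by `u`. -/
def LogRegular (e c m : ℕ) (F : Fin N → MvPolynomial (Fin (r + 1)) K)
    (G : Fin M → MvPolynomial (Fin (r + 1)) K) (H : MvPolynomial (Fin (r + 1)) K)
    (P : (Fin e → Fin N) × Fin (r + 1) → MvPolynomial (Fin (r + 1)) K)
    (x : Fin (r + 1) → K) : Prop :=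
  ∃ k, k ≤ c ∧ ∃ g : Fin k → MvPolynomial (Fin (r + 1)) K, (∀ i, (g i).totalDegree ≤ c) ∧
    (Branches e c k F G x g ∧
      ∃ w : (Fin e → Fin N) × Fin (r + 1) → MvPolynomial (Fin (r + 1)) K,
        (∀ a, (w a).totalDegree ≤ 2 * c) ∧
        ∃ u : MvPolynomial (Fin (r + 1)) K, u.totalDegree ≤ c ∧ (eval x u ≠ 0 ∧
          ∀ (a : (Fin e → Fin N) × Fin (r + 1)) (y : Fin (r + 1) → K), Zero F y →
            eval y u * (∏ i, eval y (g i)) ^ m * eval y (P a) = eval y H ^ m * eval y (w a)))

/-- For some `m` between `1` and `c` the divisor `m (K + D)` has a nonzero section: the polynomials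
`P (T, j)`, divided by the power `H ^ m` of a form of degree at most `c`, give a nonzero section of the
`m`-th power of the canonical bundle of `X` with poles of order at most `m` along `D`. -/
def LogSectionBy (e c : ℕ) (δ : Fin N → ℕ) (F : Fin N → MvPolynomial (Fin (r + 1)) K)
    (G : Fin M → MvPolynomial (Fin (r + 1)) K) : Prop :=
  ∃ m, m ≤ c ∧ ∃ h, h ≤ c ∧ (1 ≤ m ∧
    ∃ H : Unit → MvPolynomial (Fin (r + 1)) K, (∀ a, (H a).IsHomogeneous h) ∧
    ∃ P : (Fin e → Fin N) × Fin (r + 1) → MvPolynomial (Fin (r + 1)) K,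
      (∀ a, (P a).IsHomogeneous (m * (∑ i, δ (a.1 i)) + m * h + c)) ∧
      (IsCanonical e m c F P ∧
        (∀ x : Fin (r + 1) → K, x ≠ 0 → Zero F x → LogRegular e c m F G (H ()) P x) ∧
        ∃ a, ∃ x : Fin (r + 1) → K, x ≠ 0 ∧ Zero F x ∧ eval x (H ()) ≠ 0 ∧ eval x (P a) ≠ 0))

/-- Through every point `x` of `X` outside `D` and outside the zeros of a polynomial `g`, of degree at
most `c` and not zero on `X`, passes an affine line in `X` outside `D`: there is a map `τ` of degree
`k`, `1 ≤ k ≤ c`, from the projective line to `X`, such that the image of the complement of the point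
`(1 : 0)` contains `x` and does not meet `D`. -/
def LinesBy (c : ℕ) (F : Fin N → MvPolynomial (Fin (r + 1)) K)
    (G : Fin M → MvPolynomial (Fin (r + 1)) K) : Prop :=
  ∃ g : MvPolynomial (Fin (r + 1)) K, g.totalDegree ≤ c ∧
    ((∃ x : Fin (r + 1) → K, x ≠ 0 ∧ Zero F x ∧ eval x g ≠ 0) ∧
      ∀ x : Fin (r + 1) → K, x ≠ 0 → Zero F x → ¬ Zero G x → eval x g ≠ 0 →
        ∃ k, k ≤ c ∧ (1 ≤ k ∧
          ∃ τ : Fin (r + 1) → MvPolynomial (Fin 2) K, (∀ a, (τ a).IsHomogeneous k) ∧
            ((∀ s : Fin 2 → K, s ≠ 0 → ∃ a, eval s (τ a) ≠ 0) ∧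
              (∀ s : Fin 2 → K, Zero F fun a => eval s (τ a)) ∧
              (∀ s : Fin 2 → K, s 1 ≠ 0 → ¬ Zero G fun a => eval s (τ a)) ∧
              ∃ s : Fin 2 → K, s 1 ≠ 0 ∧ (fun a => eval s (τ a)) = x)))

/-- The question over the field `K` for smooth projective varieties `X` of dimension `n` and divisors
`D` with normal crossings: if no multiple `m (K + D)` has a nonzero section then there are affine lines
outside `D`, of bounded degree, through the points in general position. -/
def Question (n : ℕ) (K : Type) [Field K] : Prop :=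
  ∀ (e N M : ℕ) (δ : Fin N → ℕ) (γ : Fin M → ℕ) (F : Fin N → MvPolynomial (Fin (n + e + 1)) K)
    (G : Fin M → MvPolynomial (Fin (n + e + 1)) K),
    (∀ i, (F i).IsHomogeneous (δ i)) → (∀ i, (G i).IsHomogeneous (γ i)) →
      (∃ b, PairBy e b F G) → (∀ c, ¬ LogSectionBy e c δ F G) → ∃ c, LinesBy c F G

end Pool.Agent.H837.LU
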