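import Pool.Agent.H837.AB.Main
import Pool.Agent.H837.LU.Defs

/-!
# Logarithmic sections and affine lines in ultraproducts
-/

set_option autoImplicit false

namespace Pool.Agent.H837.LU

open MvPolynomial Pool.Agent.H837.UF Pool.Agent.H837.UR Pool.Agent.H837.AB
open Filter hiding map

theorem jacLog_map {A B : Type} [CommRing A] [CommRing B] (f : A →+* B) {r N e k : ℕ}
    (F : Fin N → MvPolynomial (Fin (r + 1)) A) (T : Fin e → Fin N)
    (g : Fin k → MvPolynomial (Fin (r + 1)) A) (l : Fin e ⊕ Fin k → Fin (r + 1)) :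
    jacLog (fun i => map f (F i)) T (fun i => map f (g i)) l = map f (jacLog F T g l) := by
  rw [jacLog, jacLog, RingHom.map_det]
  congr 1
  ext i k
  rw [RingHom.mapMatrix_apply, Matrix.map_apply, Matrix.of_apply, Matrix.of_apply]
  rcases i with i | i
  · rw [Sum.elim_inl, Sum.elim_inl, pderiv_map]
  · rw [Sum.elim_inr, Sum.elim_inr, pderiv_map]

variable {J : Type} {U : Ultrafilter J} {K : J → Type} [∀ j, Field (K j)] {L : Type} [Field L]
  {π : (∀ j, K j) →+* L}

theorem iff_los {A B : Prop} {A' B' : J → Prop} (hA : A ↔ ∀ᶠ j in U, A' j)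
    (hB : B ↔ ∀ᶠ j in U, B' j) : (A ↔ B) ↔ ∀ᶠ j in U, (A' j ↔ B' j) := by
  have h1 := and_iff (imp_iff hA hB) (imp_iff hB hA)
  constructor
  · intro h
    filter_upwards [h1.mp ⟨h.mp, h.mpr⟩] with j hj
    exact ⟨hj.1, hj.2⟩
  · intro h
    obtain ⟨h2, h3⟩ := h1.mpr (by
      filter_upwards [h] with j hj
      exact ⟨hj.mp, hj.mpr⟩)
    exact ⟨h2, h3⟩

theorem ex_le' (c : ℕ) {A : ℕ → Prop} {B : ℕ → J → Prop} (h : ∀ m, A m ↔ ∀ᶠ j in U, B m j) :
    (∃ m, m ≤ c ∧ A m) ↔ ∀ᶠ j in U, ∃ m, m ≤ c ∧ B m j := by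
  have h3 := ex_fin (ι := Fin (c + 1)) (U := U) (A := fun m : Fin (c + 1) => A m)
    (B := fun (m : Fin (c + 1)) j => B m j) fun m => h m
  have h4 : ∀ P : ℕ → Prop, (∃ m, m ≤ c ∧ P m) ↔ ∃ m : Fin (c + 1), P m := by
    intro P
    constructor
    · rintro ⟨m, hm, h⟩
      exact ⟨⟨m, Nat.lt_succ_of_le hm⟩, h⟩
    · rintro ⟨m, h⟩
      exact ⟨m, Nat.le_of_lt_succ m.2, h⟩
  simp only [h4]
  exact h3

variable (hπ : IsUltra U π) {r N M : ℕ} (F : Fin N → MvPolynomial (Fin (r + 1)) (∀ j, K j))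
  (G : Fin M → MvPolynomial (Fin (r + 1)) (∀ j, K j))

include hπ

theorem branches_los (e c k : ℕ) (x : Fin (r + 1) → ∀ j, K j)
    (g : Fin k → MvPolynomial (Fin (r + 1)) (∀ j, K j)) :
    Branches e c k (lim π F) (lim π G) (fun a => π (x a)) (fun i => map π (g i)) ↔
      ∀ᶠ j in U, Branches e c k (at' F j) (at' G j) (fun a => x a j)
        fun i => map (Pi.evalRingHom K j) (g i) := by
  refine and_iff (all_fin fun i => zero_iff hπ x (g i)) (ex_fin fun T => and_iff
    (ex_fin fun A => not_iff ?_) ?_)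
  · have h1 := zero_iff hπ x (jacLog F T g A)
    have h2 : ∀ j, jacLog (at' F j) T (fun i => map (Pi.evalRingHom K j) (g i)) A =
        map (Pi.evalRingHom K j) (jacLog F T g A) := fun j => jacLog_map _ _ _ _ _
    have h3 : jacLog (lim π F) T (fun i => map π (g i)) A = map π (jacLog F T g A) :=
      jacLog_map _ _ _ _ _
    simp only [h2, h3]
    exact h1
  · refine ex_one hπ c fun u => and_iff (not_iff (zero_iff hπ x u)) ?_
    exact all_vec hπ fun y => imp_iff (all_fin fun i => zero_iff hπ y (F (T i)))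
      (imp_iff (not_iff (zero_iff hπ y u)) (and_iff (zero_los hπ F y)
        (iff_los (zero_los hπ G y) (ex_fin fun i => zero_iff hπ y (g i)))))

theorem pair_los (e c : ℕ) :
    PairBy e c (lim π F) (lim π G) ↔ ∀ᶠ j in U, PairBy e c (at' F j) (at' G j) := by
  refine and_iff (ex_vec hπ fun x => and_iff (vec_ne hπ x) (zero_los hπ F x))
    (all_vec hπ fun x => imp_iff (vec_ne hπ x) (imp_iff (zero_los hπ F x) ?_))
  exact ex_le' c fun k => ex_poly hπ c fun g => branches_los hπ F G e c k x g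

theorem logRegular_los (e c m : ℕ) (H : MvPolynomial (Fin (r + 1)) (∀ j, K j))
    (P : (Fin e → Fin N) × Fin (r + 1) → MvPolynomial (Fin (r + 1)) (∀ j, K j))
    (x : Fin (r + 1) → ∀ j, K j) :
    LogRegular e c m (lim π F) (lim π G) (map π H) (fun a => map π (P a)) (fun a => π (x a)) ↔
      ∀ᶠ j in U, LogRegular e c m (at' F j) (at' G j) (map (Pi.evalRingHom K j) H)
        (fun a => map (Pi.evalRingHom K j) (P a)) fun a => x a j := by
  refine ex_le' c fun k => ex_poly hπ c fun g => and_iff (branches_los hπ F G e c k x g) ?_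
  refine ex_poly hπ (2 * c) fun w => ex_one hπ c fun u => and_iff (not_iff (zero_iff hπ x u)) ?_
  refine all_fin fun a => all_vec hπ fun y => imp_iff (zero_los hπ F y) ?_
  refine val_eq hπ (a := eval y u * (∏ i, eval y (g i)) ^ m * eval y (P a))
    (b := eval y H ^ m * eval y (w a)) ?_ ?_ (fun j => ?_) fun j => ?_
  · rw [map_mul, map_mul, map_pow, map_prod, eval_pi, eval_pi]
    simp only [eval_pi]
  · rw [map_mul, map_pow, eval_pi, eval_pi]
  · rw [Pi.mul_apply, Pi.mul_apply, Pi.pow_apply, Finset.prod_apply, eval_ev, eval_ev]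
    simp only [eval_ev]
  · rw [Pi.mul_apply, Pi.pow_apply, eval_ev, eval_ev]

theorem logSection_los (e c : ℕ) (δ : Fin N → ℕ) :
    LogSectionBy e c δ (lim π F) (lim π G) ↔
      ∀ᶠ j in U, LogSectionBy e c δ (at' F j) (at' G j) := by
  refine ex_le' c fun m => ex_le' c fun h => and_iff const_prop ?_
  refine ex_form hπ (fun _ : Unit => h) fun H => ?_
  refine ex_form hπ (fun a : (Fin e → Fin N) × Fin (r + 1) => m * (∑ i, δ (a.1 i)) + m * h + c)
    fun P => ?_
  refine and_iff (canonical_iff hπ F e m c P) (and_iff ?_ ?_)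
  · exact all_vec hπ fun x => imp_iff (vec_ne hπ x) (imp_iff (zero_los hπ F x)
      (logRegular_los hπ F G e c m (H ()) P x))
  · exact ex_fin fun a => ex_vec hπ fun x => and_iff (vec_ne hπ x) (and_iff (zero_los hπ F x)
      (and_iff (not_iff (zero_iff hπ x (H ()))) (not_iff (zero_iff hπ x (P a)))))

theorem lines_los (c : ℕ) :
    LinesBy c (lim π F) (lim π G) ↔ ∀ᶠ j in U, LinesBy c (at' F j) (at' G j) := by
  refine ex_one hπ c fun g => and_iff (ex_vec hπ fun x => and_iff (vec_ne hπ x)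
    (and_iff (zero_los hπ F x) (not_iff (zero_iff hπ x g)))) ?_
  refine all_vec hπ fun x => imp_iff (vec_ne hπ x) (imp_iff (zero_los hπ F x)
    (imp_iff (not_iff (zero_los hπ G x)) (imp_iff (not_iff (zero_iff hπ x g)) ?_)))
  refine ex_le' c fun k => and_iff const_prop (ex_form hπ (fun _ => k) fun τ =>
    and_iff ?_ (and_iff ?_ (and_iff ?_ ?_)))
  · exact all_vec hπ fun s => imp_iff (vec_ne hπ s) (ex_fin fun a => not_iff (zero_iff hπ s (τ a)))
  · exact all_vec hπ fun s => all_fin fun i => comp_iff hπ s τ (F i)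
  · exact all_vec hπ fun s => imp_iff (not_iff (hπ.ker _)) (not_iff (all_fin fun i =>
      comp_iff hπ s τ (G i)))
  · exact ex_vec hπ fun s => and_iff (not_iff (hπ.ker _)) (value_iff hπ s τ x)

end Pool.Agent.H837.LU
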