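import Pool.Agent.H837.LU.El

/-!
# Uniformity for open varieties of negative logarithmic Kodaira dimension
-/

set_option autoImplicit false

namespace Pool.Agent.H837.LU

open MvPolynomial Pool.Agent.H837.UF Pool.Agent.H837.SP Pool.Agent.H837.UR Pool.Agent.H837.AB
open Filter hiding map

section Mono

variable {K : Type} [Field K] {r N M : ℕ} {F : Fin N → MvPolynomial (Fin (r + 1)) K}
  {G : Fin M → MvPolynomial (Fin (r + 1)) K}

theorem Branches.mono {e c c' k : ℕ} (hcc : c ≤ c') {x : Fin (r + 1) → K}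
    {g : Fin k → MvPolynomial (Fin (r + 1)) K} (h : Branches e c k F G x g) :
    Branches e c' k F G x g := by
  obtain ⟨h1, T, h2, u, hu, h3⟩ := h
  exact ⟨h1, T, h2, u, hu.trans hcc, h3⟩

theorem LogSectionBy.mono {e c c' : ℕ} (hcc : c ≤ c') {δ : Fin N → ℕ}
    (h : LogSectionBy e c δ F G) : LogSectionBy e c' δ F G := by
  obtain ⟨m, hm, d, hd, hm1, H, hH, P, hP, hcan, hreg, ⟨T, i⟩, x, hx, hX, hne, hne'⟩ := h
  refine ⟨m, hm.trans hcc, d, hd.trans hcc, hm1, H, hH, fun a => X a.2 ^ (c' - c) * P a,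
    fun a => ?_, fun y hy => ⟨fun T j j' => ?_, fun T T' A j => ?_⟩, fun z hz hz0 => ?_, ⟨T, i⟩, x, hx,
    hX, hne, ?_⟩
  · have h1 := ((isHomogeneous_X K a.2).pow (c' - c)).mul (hP a)
    have h2 : 1 * (c' - c) + (m * (∑ i, δ (a.1 i)) + m * d + c) =
        m * (∑ i, δ (a.1 i)) + m * d + c' := by omega
    rw [h2] at h1
    exact h1
  · have h1 := (hcan y hy).1 T j j'
    rw [eval_mul, eval_mul, eval_pow, eval_pow, eval_X, eval_X]
    have h2 : m * (r + 1) + c' = (m * (r + 1) + c) + (c' - c) := by omega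
    rw [h2, pow_add, pow_add]
    linear_combination (y j' ^ (c' - c) * y j ^ (c' - c)) * h1
  · have h1 := (hcan y hy).2 T T' A j
    rw [eval_mul, eval_mul, eval_pow, eval_X]
    linear_combination (y j ^ (c' - c)) * h1
  · obtain ⟨k, hk, g, hg, hb, w, hw, u, hu, hu0, heq⟩ := hreg z hz hz0
    refine ⟨k, hk.trans hcc, g, fun i => (hg i).trans hcc, hb.mono hcc,
      fun a => X a.2 ^ (c' - c) * w a, fun a => ?_, u, hu.trans hcc, hu0, fun a y hy => ?_⟩
    · refine (totalDegree_mul _ _).trans ?_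
      have h1 : (X a.2 ^ (c' - c) : MvPolynomial (Fin (r + 1)) K).totalDegree ≤ c' - c := by
        refine (totalDegree_pow _ _).trans ?_
        rw [totalDegree_X, mul_one]
      have h2 := hw a
      omega
    · have h1 := heq a y hy
      rw [eval_mul, eval_mul, eval_pow, eval_X]
      linear_combination (y a.2 ^ (c' - c)) * h1
  · rw [eval_mul, eval_pow, eval_X]
    refine mul_ne_zero (pow_ne_zero _ ?_) hne'
    intro h0
    obtain ⟨j', hj'⟩ : ∃ j', x j' ≠ 0 := by
      by_contra hcon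
      push Not at hcon
      exact hx (_root_.funext hcon)
    have h1 := (hcan x hX).1 T i j'
    have h2 : m * (r + 1) + c ≠ 0 := by
      have : 0 < m * (r + 1) := Nat.mul_pos (by omega) (Nat.succ_pos r)
      omega
    rw [h0, zero_pow h2, zero_mul] at h1
    exact (mul_ne_zero (pow_ne_zero _ hj') hne') h1

theorem LinesBy.mono {c c' : ℕ} (hcc : c ≤ c') (h : LinesBy c F G) : LinesBy c' F G := by
  obtain ⟨g, hg, h1, h2⟩ := h
  refine ⟨g, hg.trans hcc, h1, fun x hx hX hG hgx => ?_⟩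
  obtain ⟨k, hk, h3⟩ := h2 x hx hX hG hgx
  exact ⟨k, hk.trans hcc, h3⟩

end Mono

/-- The first polynomials of a system. -/
abbrev fst {A : Type} {N M : ℕ} (Φ : Fin (N + M) → A) : Fin N → A := fun i => Φ (Fin.castAdd M i)

/-- The last polynomials of a system. -/
abbrev snd {A : Type} {N M : ℕ} (Φ : Fin (N + M) → A) : Fin M → A := fun i => Φ (Fin.natAdd N i)

theorem uniform_isLos {r N M : ℕ} (e b c : ℕ) (δ : Fin N → ℕ) :
    IsLosN (r := r) (N := N + M) fun _ _ Φ => PairBy e b (fst Φ) (snd Φ) →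
      ¬ LogSectionBy e c δ (fst Φ) (snd Φ) → LinesBy c (fst Φ) (snd Φ) :=
  fun _ _ _ _ _ _ _ _ hπ Φ => imp_iff (pair_los hπ (fst Φ) (snd Φ) e b)
    (imp_iff (not_iff (logSection_los hπ (fst Φ) (snd Φ) e c δ)) (lines_los hπ (fst Φ) (snd Φ) c))

theorem family_tfae (r N M e b : ℕ) (δ : Fin N → ℕ) (γ : Fin M → ℕ) :
    [∀ (F : Fin N → MvPolynomial (Fin (r + 1)) ℂ) (G : Fin M → MvPolynomial (Fin (r + 1)) ℂ),
       (∀ i, (F i).IsHomogeneous (δ i)) → (∀ i, (G i).IsHomogeneous (γ i)) →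
       PairBy e b F G → (∀ c, ¬ LogSectionBy e c δ F G) → ∃ c, LinesBy c F G,
     ∃ c q : ℕ, q ≠ 0 ∧ ∀ (K : Type) [Field K] [IsAlgClosed K], (q : K) ≠ 0 →
       ∀ (F : Fin N → MvPolynomial (Fin (r + 1)) K) (G : Fin M → MvPolynomial (Fin (r + 1)) K),
         (∀ i, (F i).IsHomogeneous (δ i)) → (∀ i, (G i).IsHomogeneous (γ i)) →
         PairBy e b F G → ¬ LogSectionBy e c δ F G → LinesBy c F G,
     ∃ c ℓ₀ : ℕ, ∀ (ℓ : ℕ) [Fact ℓ.Prime], ℓ₀ ≤ ℓ →
       ∀ (F : Fin N → MvPolynomial (Fin (r + 1)) (AlgebraicClosure (ZMod ℓ)))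
         (G : Fin M → MvPolynomial (Fin (r + 1)) (AlgebraicClosure (ZMod ℓ))),
         (∀ i, (F i).IsHomogeneous (δ i)) → (∀ i, (G i).IsHomogeneous (γ i)) →
         PairBy e b F G → ¬ LogSectionBy e c δ F G → LinesBy c F G,
     ∃ c : ℕ, ∀ ℓ₀ : ℕ, ∃ (ℓ : ℕ) (_ : Fact ℓ.Prime), ℓ₀ ≤ ℓ ∧
       ∀ (F : Fin N → MvPolynomial (Fin (r + 1)) (AlgebraicClosure (ZMod ℓ)))
         (G : Fin M → MvPolynomial (Fin (r + 1)) (AlgebraicClosure (ZMod ℓ))),
         (∀ i, (F i).IsHomogeneous (δ i)) → (∀ i, (G i).IsHomogeneous (γ i)) →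
         PairBy e b F G → ¬ LogSectionBy e c δ F G → LinesBy c F G].TFAE := by
  have hfin : Finite (Expos r (Fin.append δ γ)) := Finite.of_fintype (Expos r (Fin.append δ γ))
  have hft := finiteType_int (Expos r (Fin.append δ γ))
  have hT := uniform_tfae (R := MvPolynomial (Expos r (Fin.append δ γ)) ℤ)
    (Q := fun c K _ t => PairBy e b (fst fun i => map t (generics r (Fin.append δ γ) i))
        (snd fun i => map t (generics r (Fin.append δ γ) i)) →
      ¬ LogSectionBy e c δ (fst fun i => map t (generics r (Fin.append δ γ) i))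
        (snd fun i => map t (generics r (Fin.append δ γ) i)) →
      LinesBy c (fst fun i => map t (generics r (Fin.append δ γ) i))
        (snd fun i => map t (generics r (Fin.append δ γ) i)))
    (fun c => (uniform_isLos e b c δ).elementary (generics r (Fin.append δ γ)))
    (fun c c' hcc K _ φ h h1 h2 => (h h1 fun h3 => h2 (h3.mono hcc)).mono hcc)
  have hdeg : ∀ (K : Type) [Field K] (t : MvPolynomial (Expos r (Fin.append δ γ)) ℤ →+* K)
      (i : Fin (N + M)), (map t (generics r (Fin.append δ γ) i)).IsHomogeneous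
        (Fin.append δ γ i) := fun K _ t i => (generics_isHomogeneous r (Fin.append δ γ) i).map t
  have hdeg1 : ∀ (K : Type) [Field K] (t : MvPolynomial (Expos r (Fin.append δ γ)) ℤ →+* K)
      (i : Fin N), (map t (generics r (Fin.append δ γ) (Fin.castAdd M i))).IsHomogeneous (δ i) := by
    intro K _ t i
    have h1 := hdeg K t (Fin.castAdd M i)
    rw [Fin.append_left] at h1
    exact h1
  have hdeg2 : ∀ (K : Type) [Field K] (t : MvPolynomial (Expos r (Fin.append δ γ)) ℤ →+* K)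
      (i : Fin M), (map t (generics r (Fin.append δ γ) (Fin.natAdd N i))).IsHomogeneous (γ i) := by
    intro K _ t i
    have h1 := hdeg K t (Fin.natAdd N i)
    rw [Fin.append_right] at h1
    exact h1
  have hex : ∀ (K : Type) [Field K] (F : Fin N → MvPolynomial (Fin (r + 1)) K)
      (G : Fin M → MvPolynomial (Fin (r + 1)) K), (∀ i, (F i).IsHomogeneous (δ i)) →
      (∀ i, (G i).IsHomogeneous (γ i)) →
      ∃ t : MvPolynomial (Expos r (Fin.append δ γ)) ℤ →+* K,
        (fst fun i => map t (generics r (Fin.append δ γ) i)) = F ∧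
        (snd fun i => map t (generics r (Fin.append δ γ) i)) = G := by
    intro K _ F G hF hG
    obtain ⟨t, ht⟩ := exists_homs (K := K) (F := Fin.append F G) (δ := Fin.append δ γ) (by
      intro i
      refine Fin.addCases (fun i => ?_) (fun i => ?_) i
      · rw [Fin.append_left, Fin.append_left]
        exact hF i
      · rw [Fin.append_right, Fin.append_right]
        exact hG i)
    refine ⟨t, ?_, ?_⟩
    · rw [ht]
      funext i
      exact Fin.append_left F G i
    · rw [ht]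
      funext i
      exact Fin.append_right F G i
  have key : ∀ (c : ℕ) (K : Type) [Field K],
      (∀ t : MvPolynomial (Expos r (Fin.append δ γ)) ℤ →+* K,
        PairBy e b (fst fun i => map t (generics r (Fin.append δ γ) i))
          (snd fun i => map t (generics r (Fin.append δ γ) i)) →
        ¬ LogSectionBy e c δ (fst fun i => map t (generics r (Fin.append δ γ) i))
          (snd fun i => map t (generics r (Fin.append δ γ) i)) →
        LinesBy c (fst fun i => map t (generics r (Fin.append δ γ) i))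
          (snd fun i => map t (generics r (Fin.append δ γ) i))) ↔
      ∀ (F : Fin N → MvPolynomial (Fin (r + 1)) K) (G : Fin M → MvPolynomial (Fin (r + 1)) K),
        (∀ i, (F i).IsHomogeneous (δ i)) → (∀ i, (G i).IsHomogeneous (γ i)) →
        PairBy e b F G → ¬ LogSectionBy e c δ F G → LinesBy c F G := by
    intro c K _
    constructor
    · intro h F G hF hG h1 h2
      obtain ⟨t, rfl, rfl⟩ := hex K F G hF hG
      exact h t h1 h2
    · intro h t h1 h2
      exact h _ _ (hdeg1 K t) (hdeg2 K t) h1 h2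
  tfae_have 1 → 2 := by
    intro h
    have h02 := hT.out 0 2
    obtain ⟨c, q, hq, hc⟩ := h02.mp fun t => by
      by_cases h1 : PairBy e b (fst fun i => map t (generics r (Fin.append δ γ) i))
          (snd fun i => map t (generics r (Fin.append δ γ) i))
      · by_cases h2 : ∀ c, ¬ LogSectionBy e c δ
            (fst fun i => map t (generics r (Fin.append δ γ) i))
            (snd fun i => map t (generics r (Fin.append δ γ) i))
        · obtain ⟨c, hc⟩ := h _ _ (hdeg1 ℂ t) (hdeg2 ℂ t) h1 h2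
          exact ⟨c, fun _ _ => hc⟩
        · push Not at h2
          obtain ⟨k, hk⟩ := h2
          exact ⟨k, fun _ h3 => absurd hk h3⟩
      · exact ⟨0, fun h3 => absurd h3 h1⟩
    exact ⟨c, q, hq, fun K _ _ hMK => (key c K).mp fun t => hc K t hMK⟩
  tfae_have 2 → 3 := by
    rintro ⟨c, q, hq, hc⟩
    refine ⟨c, q + 1, fun ℓ hℓ hle => hc _ ?_⟩
    intro h0
    rw [CharP.cast_eq_zero_iff (AlgebraicClosure (ZMod ℓ)) ℓ] at h0
    have h3 := Nat.le_of_dvd (Nat.pos_of_ne_zero hq) h0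
    omega
  tfae_have 3 → 4 := by
    rintro ⟨c, ℓ₀, hc⟩
    refine ⟨c, fun ℓ₁ => ?_⟩
    obtain ⟨ℓ, hle, hℓ⟩ := Nat.exists_infinite_primes (max ℓ₀ ℓ₁)
    have hf : Fact ℓ.Prime := ⟨hℓ⟩
    exact ⟨ℓ, hf, (le_max_right _ _).trans hle, hc ℓ ((le_max_left _ _).trans hle)⟩
  tfae_have 4 → 1 := by
    rintro ⟨c, hc⟩
    have h41 := hT.out 4 1
    obtain ⟨c', hc'⟩ := h41.mp ⟨c, fun ℓ₀ => by
      obtain ⟨ℓ, hf, hle, h⟩ := hc ℓ₀
      exact ⟨ℓ, hf, hle, (key c _).mpr h⟩⟩
    intro F G hF hG h1 h2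
    exact ⟨c', (key c' ℂ).mp hc' F G hF hG h1 (h2 c')⟩
  tfae_finish

/-- **Negative logarithmic Kodaira dimension and affine lines: bounded statements over finite
fields.** -/
theorem question_tfae (n : ℕ) :
    [∀ (K : Type) [Field K] [IsAlgClosed K] [CharZero K], Question n K,
     Question n ℂ,
     ∀ (e N M b : ℕ) (δ : Fin N → ℕ) (γ : Fin M → ℕ), ∃ c q : ℕ, q ≠ 0 ∧
       ∀ (K : Type) [Field K] [IsAlgClosed K], (q : K) ≠ 0 →
       ∀ (F : Fin N → MvPolynomial (Fin (n + e + 1)) K)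
         (G : Fin M → MvPolynomial (Fin (n + e + 1)) K),
         (∀ i, (F i).IsHomogeneous (δ i)) → (∀ i, (G i).IsHomogeneous (γ i)) →
         PairBy e b F G → ¬ LogSectionBy e c δ F G → LinesBy c F G,
     ∀ (e N M b : ℕ) (δ : Fin N → ℕ) (γ : Fin M → ℕ), ∃ c ℓ₀ : ℕ,
       ∀ (ℓ : ℕ) [Fact ℓ.Prime], ℓ₀ ≤ ℓ →
       ∀ (F : Fin N → MvPolynomial (Fin (n + e + 1)) (AlgebraicClosure (ZMod ℓ)))
         (G : Fin M → MvPolynomial (Fin (n + e + 1)) (AlgebraicClosure (ZMod ℓ))),
         (∀ i, (F i).IsHomogeneous (δ i)) → (∀ i, (G i).IsHomogeneous (γ i)) →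
         PairBy e b F G → ¬ LogSectionBy e c δ F G → LinesBy c F G,
     ∀ (e N M b : ℕ) (δ : Fin N → ℕ) (γ : Fin M → ℕ), ∃ c : ℕ,
       ∀ ℓ₀ : ℕ, ∃ (ℓ : ℕ) (_ : Fact ℓ.Prime), ℓ₀ ≤ ℓ ∧
       ∀ (F : Fin N → MvPolynomial (Fin (n + e + 1)) (AlgebraicClosure (ZMod ℓ)))
         (G : Fin M → MvPolynomial (Fin (n + e + 1)) (AlgebraicClosure (ZMod ℓ))),
         (∀ i, (F i).IsHomogeneous (δ i)) → (∀ i, (G i).IsHomogeneous (γ i)) →
         PairBy e b F G → ¬ LogSectionBy e c δ F G → LinesBy c F G].TFAE := by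
  tfae_have 1 → 2 := fun h => h ℂ
  tfae_have 2 → 3 := by
    intro h e N M b δ γ
    exact ((family_tfae (n + e) N M e b δ γ).out 0 1).mp fun F G hF hG h1 h2 =>
      h e N M δ γ F G hF hG ⟨b, h1⟩ h2
  tfae_have 3 → 1 := by
    intro h K _ _ _ e N M δ γ F G hF hG h1 h2
    obtain ⟨b, hb⟩ := h1
    obtain ⟨c, q, hq, hc⟩ := h e N M b δ γ
    exact ⟨c, hc K (Nat.cast_ne_zero.mpr hq) F G hF hG hb (h2 c)⟩
  tfae_have 3 ↔ 4 := forall_congr' fun e => forall_congr' fun N => forall_congr' fun M =>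
    forall_congr' fun b => forall_congr' fun δ => forall_congr' fun γ =>
      (family_tfae (n + e) N M e b δ γ).out 1 2
  tfae_have 3 ↔ 5 := forall_congr' fun e => forall_congr' fun N => forall_congr' fun M =>
    forall_congr' fun b => forall_congr' fun δ => forall_congr' fun γ =>
      (family_tfae (n + e) N M e b δ γ).out 1 3
  tfae_finish

end Pool.Agent.H837.LU
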