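import Pool.Agent.H837.KU.Main
import Pool.Agent.H837.LU.Main

/-!
# Reductions of one pair
-/

set_option autoImplicit false

namespace Pool.Agent.H837.LU

open MvPolynomial Pool.Agent.H837.UF Pool.Agent.H837.SP Pool.Agent.H837.UR Pool.Agent.H837.AB

theorem lines_isLos {r N M : ℕ} (c : ℕ) :
    IsLosN (r := r) (N := N + M) fun _ _ Φ => LinesBy c (fst Φ) (snd Φ) :=
  fun _ _ _ _ _ _ _ _ hπ Φ => lines_los hπ (fst Φ) (snd Φ) c

theorem logSection_isLos {r N M : ℕ} (e c : ℕ) (δ : Fin N → ℕ) :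
    IsLosN (r := r) (N := N + M) fun _ _ Φ => LogSectionBy e c δ (fst Φ) (snd Φ) :=
  fun _ _ _ _ _ _ _ _ hπ Φ => logSection_los hπ (fst Φ) (snd Φ) e c δ

variable {r N M : ℕ} (F : Fin N → MvPolynomial (Fin (r + 1)) ℤ)
  (G : Fin M → MvPolynomial (Fin (r + 1)) ℤ)

theorem fst_append {K : Type} [Field K] (t : ℤ →+* K) :
    (fst fun i => map t (Fin.append F G i)) = fun i => map t (F i) := by
  funext i
  show map t (Fin.append F G (Fin.castAdd M i)) = map t (F i)
  rw [Fin.append_left]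

theorem snd_append {K : Type} [Field K] (t : ℤ →+* K) :
    (snd fun i => map t (Fin.append F G i)) = fun i => map t (G i) := by
  funext i
  show map t (Fin.append F G (Fin.natAdd N i)) = map t (G i)
  rw [Fin.append_right]

theorem lines_reductions :
    [∃ c, LinesBy c (fun i => map (Int.castRingHom ℂ) (F i)) fun i => map (Int.castRingHom ℂ) (G i),
     ∃ c ℓ₀ : ℕ, ∀ (ℓ : ℕ) [Fact ℓ.Prime], ℓ₀ ≤ ℓ →
       LinesBy c (fun i => map (Int.castRingHom (AlgebraicClosure (ZMod ℓ))) (F i))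
         fun i => map (Int.castRingHom (AlgebraicClosure (ZMod ℓ))) (G i),
     ∃ c : ℕ, ∀ ℓ₀ : ℕ, ∃ (ℓ : ℕ) (_ : Fact ℓ.Prime), ℓ₀ ≤ ℓ ∧
       LinesBy c (fun i => map (Int.castRingHom (AlgebraicClosure (ZMod ℓ))) (F i))
         fun i => map (Int.castRingHom (AlgebraicClosure (ZMod ℓ))) (G i)].TFAE := by
  have h := KU.reductions_tfae (P := fun c _ _ Φ => LinesBy c (fst Φ) (snd Φ))
    (fun c => lines_isLos (r := r) (N := N) (M := M) c) (fun _ _ hcc _ _ _ h1 => h1.mono hcc)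
    (Fin.append F G)
  simp only [fst_append, snd_append] at h
  exact h

theorem logSection_reductions (e : ℕ) (δ : Fin N → ℕ) :
    [∃ c, LogSectionBy e c δ (fun i => map (Int.castRingHom ℂ) (F i))
       fun i => map (Int.castRingHom ℂ) (G i),
     ∃ c ℓ₀ : ℕ, ∀ (ℓ : ℕ) [Fact ℓ.Prime], ℓ₀ ≤ ℓ →
       LogSectionBy e c δ (fun i => map (Int.castRingHom (AlgebraicClosure (ZMod ℓ))) (F i))
         fun i => map (Int.castRingHom (AlgebraicClosure (ZMod ℓ))) (G i),
     ∃ c : ℕ, ∀ ℓ₀ : ℕ, ∃ (ℓ : ℕ) (_ : Fact ℓ.Prime), ℓ₀ ≤ ℓ ∧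
       LogSectionBy e c δ (fun i => map (Int.castRingHom (AlgebraicClosure (ZMod ℓ))) (F i))
         fun i => map (Int.castRingHom (AlgebraicClosure (ZMod ℓ))) (G i)].TFAE := by
  have h := KU.reductions_tfae (P := fun c _ _ Φ => LogSectionBy e c δ (fst Φ) (snd Φ))
    (fun c => logSection_isLos (r := r) (N := N) (M := M) e c δ)
    (fun _ _ hcc _ _ _ h1 => h1.mono hcc) (Fin.append F G)
  simp only [fst_append, snd_append] at h
  exact h

end Pool.Agent.H837.LU
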